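import Pool.Agent.H23.MS.Defs
import Pool.Agent.H94.MuSym.ClassProof

/-!
# Comparison with the definitions of `Pool.H94.MuSym`
-/

namespace Pool.H23.MS

open MvPolynomial NumberField
open Pool.H94.MuSym (symPow tenPow SymSpace)

variable {F G : Type} [Field F] [Group G]

/-- the module of a representation -/
def ofRep {V : Type} [AddCommGroup V] [Module F V] (τ : Representation F G V) : GMod F G where
  V := V
  act g v := τ g v
  lin g := (τ g).isLinear
  one v := by simp
  mul g g' v := by simp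

/-- the representation of a module -/
def toRep (A : GMod F G) : Representation F G A.V where
  toFun g := IsLinearMap.mk' (A.act g) (A.lin g)
  map_one' := by
    ext v
    exact A.one v
  map_mul' g g' := by
    ext v
    exact A.mul g g' v

theorem ofRep_toRep (A : GMod F G) : ofRep (toRep A) = A := rfl

theorem ker_ofRep {V : Type} [AddCommGroup V] [Module F V] (τ : Representation F G V) (g : G) :
    (∀ v, (ofRep τ).act g v = v) ↔ τ g = 1 := by
  constructor
  · intro h
    ext v
    exact h v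
  · intro h v
    show τ g v = v
    rw [h]
    rfl

theorem ker_toRep (A : GMod F G) (g : G) : (∀ v, A.act g v = v) ↔ toRep A g = 1 :=
  ker_ofRep (toRep A) g

section Top

variable [TopologicalSpace G]

theorem fin_ofRep {V : Type} [AddCommGroup V] [Module F V] (τ : Representation F G V) :
    (ofRep τ).IsFinite ↔ Pool.H94.MuSym.IsFiniteModule F G V τ := by
  have : {g : G | ∀ v, (ofRep τ).act g v = v} = {g : G | τ g = 1} := by
    ext g
    exact ker_ofRep τ g
  unfold GMod.IsFinite Pool.H94.MuSym.IsFiniteModule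
  rw [this]
  exact Iff.rfl

/-- the function `h` on representations -/
def oldMu (h : GMod F G → ℕ) (hh : IsMu h) : Pool.H94.MuSym.MuNumber F G where
  h V _ _ τ := h (ofRep τ)
  quot V W _ _ _ _ ρ σ f hf hs he :=
    hh.quot (ofRep ρ) (ofRep σ) f ((fin_ofRep ρ).2 hf) ⟨f.isLinear, he⟩ hs
  sum ι _ V _ _ ρ τ hρ hτ :=
    hh.sum ι (fun i => ofRep (ρ i)) (ofRep τ) (fun i v => v i)
      (fun i => (fin_ofRep (ρ i)).2 (hρ i))
      (fun i => ⟨⟨fun _ _ => rfl, fun _ _ => rfl⟩, fun g v => hτ g v i⟩)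
      Function.bijective_id

theorem fin_congr {A B : GMod F G} (f : A.V → B.V) (hf : IsHom A B f)
    (hb : Function.Bijective f) : A.IsFinite ↔ B.IsFinite := by
  let e : A.V ≃ₗ[F] B.V := LinearEquiv.ofBijective (IsLinearMap.mk' f hf.1) hb
  have h1 : {g : G | ∀ v, A.act g v = v} = {g : G | ∀ v, B.act g v = v} := by
    ext g
    constructor
    · intro h w
      obtain ⟨v, rfl⟩ := hb.2 w
      rw [← hf.2, h v]
    · intro h v
      apply hb.1
      rw [hf.2]
      exact h (f v)
  have h2 : Module.Finite F A.V ↔ Module.Finite F B.V :=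
    ⟨fun _ => Module.Finite.equiv e, fun _ => Module.Finite.equiv e.symm⟩
  unfold GMod.IsFinite
  rw [h1, h2]

theorem h_iso {h : GMod F G → ℕ} (hh : IsMu h) {A B : GMod F G} (hB : B.IsFinite) (f : A.V → B.V)
    (hf : IsHom A B f) (hb : Function.Bijective f) : h A = h B := by
  have hA : A.IsFinite := (fin_congr f hf hb).2 hB
  apply le_antisymm
  · let e : A.V ≃ₗ[F] B.V := LinearEquiv.ofBijective (IsLinearMap.mk' f hf.1) hb
    have he : ∀ v, e v = f v := fun _ => rfl
    refine hh.quot B A e.symm hB ⟨e.symm.toLinearMap.isLinear, ?_⟩ e.symm.surjective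
    intro g w
    apply e.injective
    rw [e.apply_symm_apply, he, hf.2, ← he, e.apply_symm_apply]
  · exact hh.quot A B f hA hf hb.2

end Top

section Powers

variable {d : ℕ} (ρ : G →* GL (Fin d) F) (n : ℕ)

theorem isSym_symPow : IsSym ρ n (ofRep (symPow ρ n)) := by
  refine ⟨fun v : homogeneousSubmodule (Fin d) F n => (v : MvPolynomial (Fin d) F),
    ⟨fun _ _ => rfl, fun _ _ => rfl⟩, Subtype.val_injective, ?_, fun g v => rfl⟩
  intro P
  constructor
  · intro hP
    exact ⟨⟨P, (mem_homogeneousSubmodule n P).2 hP⟩, rfl⟩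
  · rintro ⟨v, rfl⟩
    exact (mem_homogeneousSubmodule n _).1 v.2

theorem isTen_tenPow : IsTen ρ n (ofRep (tenPow ρ n)) :=
  ⟨id, ⟨fun _ _ => rfl, fun _ _ => rfl⟩, Function.bijective_id, fun g v k => rfl⟩

theorem sym_iso {A : GMod F G} (hA : IsSym ρ n A) :
    ∃ f : A.V → (ofRep (symPow ρ n)).V, IsHom A (ofRep (symPow ρ n)) f ∧ Function.Bijective f := by
  obtain ⟨e, he, hi, hr, ha⟩ := hA
  have hmem : ∀ v, e v ∈ homogeneousSubmodule (Fin d) F n := fun v =>
    (mem_homogeneousSubmodule n _).2 ((hr _).2 ⟨v, rfl⟩)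
  let f : A.V → homogeneousSubmodule (Fin d) F n := fun v => ⟨e v, hmem v⟩
  refine ⟨f, ⟨⟨?_, ?_⟩, ?_⟩, ?_, ?_⟩
  · intro v w
    exact Subtype.ext (he.map_add v w)
  · intro c v
    exact Subtype.ext (he.map_smul c v)
  · intro g v
    exact Subtype.ext (ha g v)
  · intro v w hvw
    exact hi (congrArg Subtype.val hvw)
  · rintro ⟨P, hP⟩
    obtain ⟨v, hv⟩ := (hr P).1 ((mem_homogeneousSubmodule n P).1 hP)
    exact ⟨v, Subtype.ext hv⟩

theorem ten_iso {A : GMod F G} (hA : IsTen ρ n A) :
    ∃ f : A.V → (ofRep (tenPow ρ n)).V, IsHom A (ofRep (tenPow ρ n)) f ∧ Function.Bijective f := by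
  obtain ⟨e, he, hb, ha⟩ := hA
  exact ⟨e, ⟨he, fun g v => funext fun k => ha g v k⟩, hb⟩

variable [TopologicalSpace G] [IsTopologicalGroup G]

theorem fin_sym (hρ : OpenKernel ρ) : (ofRep (symPow ρ n)).IsFinite :=
  (fin_ofRep _).2 ⟨Pool.H94.MuSym.finite_homog n,
    Pool.H94.MuSym.isOpen_ker _ ρ hρ (Pool.H94.MuSym.symPow0_triv ρ n)⟩

theorem fin_ten (hρ : OpenKernel ρ) : (ofRep (tenPow ρ n)).IsFinite :=
  (fin_ofRep _).2 (Pool.H94.MuSym.tenPow_fin ρ hρ n)

theorem h_sym {h : GMod F G → ℕ} (hh : IsMu h) (hρ : OpenKernel ρ) {A : GMod F G}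
    (hA : IsSym ρ n A) : h A = h (ofRep (symPow ρ n)) := by
  obtain ⟨f, hf, hb⟩ := sym_iso ρ n hA
  exact h_iso hh (fin_sym ρ n hρ) f hf hb

theorem h_ten {h : GMod F G → ℕ} (hh : IsMu h) (hρ : OpenKernel ρ) {A : GMod F G}
    (hA : IsTen ρ n A) : h A = h (ofRep (tenPow ρ n)) := by
  obtain ⟨f, hf, hb⟩ := ten_iso ρ n hA
  exact h_iso hh (fin_ten ρ n hρ) f hf hb

end Powers

section Pairings

variable {M : Type} [Field M] [NumberField M]

/-- an action as a homomorphism -/
def actHom (φ : G → (M ≃+* M)) (hφ : IsAction φ) : G →* (M ≃+* M) where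
  toFun := φ
  map_one' := by
    ext x
    have := hφ 1 1 x
    rw [mul_one] at this
    exact ((φ 1).injective this).symm
  map_mul' g g' := by
    ext x
    exact hφ g g' x

theorem pairNum_eq (φ : G → (M ≃+* M)) (hφ : IsAction φ) {A : GMod F G} {V : Type}
    [AddCommGroup V] [Module F V] (τ : Representation F G V) (f : A.V → (ofRep τ).V)
    (hf : IsHom A (ofRep τ) f) (hb : Function.Bijective f) :
    pairNum φ A = Pool.H94.MuSym.pairNum (actHom φ hφ) τ := by
  let e : A.V ≃ₗ[F] V := LinearEquiv.ofBijective (IsLinearMap.mk' f hf.1) hb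
  have he : ∀ v, e v = f v := fun _ => rfl
  let L : (ClassGroup (𝓞 M) → (V →ₗ[F] F)) →ₗ[F] (ClassGroup (𝓞 M) → A.V → F) :=
    { toFun := fun b x v => b x (e v)
      map_add' := fun b b' => rfl
      map_smul' := fun c b => rfl }
  have hL : Function.Injective L := by
    intro b b' hbb
    funext x
    ext v
    have h1 := congrFun (congrFun hbb x) (e.symm v)
    change b x (e (e.symm v)) = b' x (e (e.symm v)) at h1
    rwa [e.apply_symm_apply] at h1
  have hS : {b : ClassGroup (𝓞 M) → A.V → F | IsPairing φ A b} =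
      ((Pool.H94.MuSym.pairings (actHom φ hφ) τ).map L : Set (ClassGroup (𝓞 M) → A.V → F)) := by
    ext b
    constructor
    · rintro ⟨h1, h2, h3⟩
      refine ⟨fun x => (IsLinearMap.mk' (b x) (h2 x)) ∘ₗ e.symm.toLinearMap, ⟨?_, ?_⟩, ?_⟩
      · intro c c'
        ext v
        exact h1 c c' _
      · intro g c v
        show b (ClassGroup.mulEquiv (RingOfIntegers.mapRingEquiv (φ g)) c) (e.symm (τ g v)) =
          b c (e.symm v)
        have h4 : e.symm (τ g v) = A.act g (e.symm v) := by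
          apply e.injective
          rw [e.apply_symm_apply, he, hf.2, ← he, e.apply_symm_apply]
          rfl
        rw [h4]
        exact h3 g c _
      · funext x v
        show b x (e.symm (e v)) = b x v
        rw [e.symm_apply_apply]
    · rintro ⟨c, ⟨h1, h2⟩, rfl⟩
      refine ⟨?_, ?_, ?_⟩
      · intro x y v
        show c (x * y) (e v) = c x (e v) + c y (e v)
        rw [h1]
        rfl
      · intro x
        exact ((c x) ∘ₗ e.toLinearMap).isLinear
      · intro g x v
        show c (ClassGroup.mulEquiv (RingOfIntegers.mapRingEquiv (φ g)) x) (e (A.act g v)) =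
          c x (e v)
        have h4 : e (A.act g v) = τ g (e v) := by
          rw [he, hf.2]
          rfl
        rw [h4]
        exact h2 g x (e v)
  rw [pairNum, Pool.H94.MuSym.pairNum, Set.finrank, hS, Submodule.span_eq]
  exact (Submodule.equivMapOfInjective L hL _).finrank_eq.symm

theorem classRank_eq (F : Type) [Field F] (M : Type) [Field M] [NumberField M] :
    classRank F M = Pool.H94.MuSym.classRank F M := by
  have hS : {f : ClassGroup (𝓞 M) → F | ∀ x y, f (x * y) = f x + f y} =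
      (Pool.H94.MuSym.classHom F M : Set (ClassGroup (𝓞 M) → F)) := rfl
  rw [classRank, Pool.H94.MuSym.classRank, Set.finrank, hS, Submodule.span_eq]

end Pairings

theorem tfae5 {p1 p2 p3 p4 p5 q1 q2 q3 q4 q5 : Prop} (h : List.TFAE [p1, p2, p3, p4, p5])
    (e1 : q1 ↔ p1) (e2 : q2 ↔ p2) (e3 : q3 ↔ p3) (e4 : q4 ↔ p4) (e5 : q5 ↔ p5) :
    List.TFAE [q1, q2, q3, q4, q5] := by
  rw [e1, e2, e3, e4, e5]
  exact h

theorem oftenSmall_congr {f g : ℕ → ℕ} (b : ℕ → ℝ) (h : ∀ n, f n = g n) :
    OftenSmall f b ↔ OftenSmall g b := by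
  have : f = g := funext h
  rw [this]

theorem main (F : Type) [Field F] [Finite F] :
    (∀ (GK : Type) [Group GK] [TopologicalSpace GK] [IsTopologicalGroup GK]
      (h : GMod F GK → ℕ), IsMu h →
      (∀ (d : ℕ) (ρ : GK →* GL (Fin d) F) (S T : ℕ → GMod F GK),
        (∀ n, IsSym ρ n (S n)) → (∀ n, IsTen ρ n (T n)) → OpenKernel ρ →
        List.TFAE [
          ∀ A : GMod F GK, A.IsFinite → IsOver ρ A → h A = 0,
          ∀ n < order ρ, h (S n) = 0,
          OftenSmall (fun n => h (S n)) (fun N => (N : ℝ) ^ d),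
          ∀ n < order ρ, h (T n) = 0,
          OftenSmall (fun n => h (T n)) (fun N => (d : ℝ) ^ N)]) ∧
      ((∀ A : GMod F GK, A.IsFinite → h A = 0) ↔
        ∀ (d : ℕ) (ρ : GK →* GL (Fin d) F) (S : ℕ → GMod F GK),
          (∀ n, IsSym ρ n (S n)) → OpenKernel ρ →
          OftenSmall (fun n => h (S n)) (fun N => (N : ℝ) ^ d))) ∧
    (∀ (G : Type) [Group G] [Finite G] (M : ℕ → Type) [∀ n, Field (M n)]
      [∀ n, NumberField (M n)] (φ : ∀ n, G → (M n ≃+* M n)) (a : ℕ → ℝ) (d : ℕ)
      (ρ : G →* GL (Fin d) F) (S T : ℕ → GMod F G),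
      (∀ n, IsAction (φ n)) → (∀ n, IsSym ρ n (S n)) → (∀ n, IsTen ρ n (T n)) →
      (∀ n, 0 < a n) → 0 < d → Function.Injective ρ →
      List.TFAE [
        IsSmall (fun n => classRank F (M n)) a,
        ∀ j < Nat.card G, IsSmall (fun n => pairNum (φ n) (S j)) a,
        OftenSmallIn (fun n j => pairNum (φ n) (S j)) (fun N => (N : ℝ) ^ d) a,
        ∀ j < Nat.card G, IsSmall (fun n => pairNum (φ n) (T j)) a,
        OftenSmallIn (fun n j => pairNum (φ n) (T j)) (fun N => (d : ℝ) ^ N) a]) := by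
  refine ⟨?_, ?_⟩
  · intro GK _ _ _ h hh
    obtain ⟨m1, m2⟩ := Pool.H94.MuSym.main F GK (oldMu h hh)
    refine ⟨?_, ?_⟩
    · intro d ρ S T hS hT hρ
      have hs : ∀ n, h (S n) = h (ofRep (symPow ρ n)) := fun n => h_sym ρ n hh hρ (hS n)
      have ht : ∀ n, h (T n) = h (ofRep (tenPow ρ n)) := fun n => h_ten ρ n hh hρ (hT n)
      refine tfae5 (m1 d ρ hρ).1 ?_ ?_ ?_ ?_ ?_
      · constructor
        · intro h1 V _ _ τ hV triv
          exact h1 (ofRep τ) ((fin_ofRep τ).2
            ⟨hV, Pool.H94.MuSym.isOpen_ker τ ρ hρ triv⟩) (fun g v hg => by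
              show τ g v = v
              rw [triv g hg]
              rfl)
        · intro h1 A hA hover
          exact h1 A.V (toRep A) hA.1 (fun g hg => (ker_toRep A g).1 (fun v => hover g v hg))
      · exact forall_congr' fun n => by rw [hs n]; exact Iff.rfl
      · rw [oftenSmall_congr _ hs]
        exact Iff.rfl
      · exact forall_congr' fun n => by rw [ht n]; exact Iff.rfl
      · rw [oftenSmall_congr _ ht]
        exact Iff.rfl
    · have e1 : (∀ A : GMod F GK, A.IsFinite → h A = 0) ↔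
          (∀ (V : Type) [AddCommGroup V] [Module F V] (τ : Representation F GK V),
            Pool.H94.MuSym.IsFiniteModule F GK V τ → (oldMu h hh).h V τ = 0) := by
        constructor
        · intro h1 V _ _ τ hτ
          exact h1 (ofRep τ) ((fin_ofRep τ).2 hτ)
        · intro h1 A hA
          exact h1 A.V (toRep A) ((fin_ofRep (toRep A)).1 hA)
      rw [e1, m2]
      constructor
      · intro h1 d ρ S hS hρ
        have hs : ∀ n, h (S n) = h (ofRep (symPow ρ n)) := fun n => h_sym ρ n hh hρ (hS n)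
        rw [oftenSmall_congr _ hs]
        exact h1 d ρ hρ
      · intro h1 d ρ hρ
        exact h1 d ρ (fun n => ofRep (symPow ρ n)) (fun n => isSym_symPow ρ n) hρ
  · intro G _ _ M _ _ φ a d ρ S T hφ hS hT ha hd hρ
    have hs : ∀ n j, pairNum (φ n) (S j) =
        Pool.H94.MuSym.pairNum (actHom (φ n) (hφ n)) (symPow ρ j) := by
      intro n j
      obtain ⟨f, hf, hb⟩ := sym_iso ρ j (hS j)
      exact pairNum_eq (φ n) (hφ n) (symPow ρ j) f hf hb
    have ht : ∀ n j, pairNum (φ n) (T j) =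
        Pool.H94.MuSym.pairNum (actHom (φ n) (hφ n)) (tenPow ρ j) := by
      intro n j
      obtain ⟨f, hf, hb⟩ := ten_iso ρ j (hT j)
      exact pairNum_eq (φ n) (hφ n) (tenPow ρ j) f hf hb
    have hc : ∀ n, classRank F (M n) = Pool.H94.MuSym.classRank F (M n) :=
      fun n => classRank_eq F (M n)
    simp only [hs, ht, hc]
    exact Pool.H94.MuSym.classMain M (fun n => actHom (φ n) (hφ n)) a ha d hd ρ hρ

end Pool.H23.MS
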