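import Mathlib

/-!
# Mu-numbers of finite Galois modules: definitions
-/

namespace Pool.H23.MS

open MvPolynomial NumberField

/-- A module of the group `G` over the field `F`: a vector space with a linear action of `G`. -/
structure GMod (F G : Type) [Field F] [Group G] where
  /-- the vector space -/
  V : Type
  [grp : AddCommGroup V]
  [mod : Module F V]
  /-- the action -/
  act : G → V → V
  lin : ∀ g, IsLinearMap F (act g)
  one : ∀ v, act 1 v = v
  mul : ∀ g g' v, act (g * g') v = act g (act g' v)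

attribute [instance] GMod.grp GMod.mod

section

variable {F G : Type} [Field F] [Group G]

/-- The module is finite: finite-dimensional, and the kernel of the action is open. -/
def GMod.IsFinite [TopologicalSpace G] (A : GMod F G) : Prop :=
  Module.Finite F A.V ∧ IsOpen {g : G | ∀ v, A.act g v = v}

/-- `f` is a homomorphism of modules -/
def IsHom (A B : GMod F G) (f : A.V → B.V) : Prop :=
  IsLinearMap F f ∧ ∀ g v, f (A.act g v) = B.act g (f v)

/-- `h` (for example the mu-number) does not increase when one passes from a finite module to a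
quotient module, and is additive on finite direct sums of finite modules. -/
structure IsMu [TopologicalSpace G] (h : GMod F G → ℕ) : Prop where
  quot : ∀ (A B : GMod F G) (f : A.V → B.V), A.IsFinite → IsHom A B f → Function.Surjective f →
    h B ≤ h A
  sum : ∀ (ι : Type) [Fintype ι] (A : ι → GMod F G) (B : GMod F G) (f : ∀ i, B.V → (A i).V),
    (∀ i, (A i).IsFinite) → (∀ i, IsHom B (A i) (f i)) → Function.Bijective (fun v i => f i v) →
    h B = ∑ i, h (A i)

/-- the kernel of `ρ` is open -/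
def OpenKernel [TopologicalSpace G] {d : ℕ} (ρ : G →* GL (Fin d) F) : Prop :=
  IsOpen {g : G | ρ g = 1}

/-- the order of the group `ρ(G)` -/
noncomputable def order {d : ℕ} (ρ : G →* GL (Fin d) F) : ℕ := Nat.card ρ.range

/-- the kernel of `ρ` acts trivially on `A` -/
def IsOver {d : ℕ} (ρ : G →* GL (Fin d) F) (A : GMod F G) : Prop :=
  ∀ g v, ρ g = 1 → A.act g v = v

/-- `A` is the `n`-th symmetric power of `ρ`: the homogeneous polynomials of degree `n` in
`X_1, ..., X_d`, with the action of `g` by the substitution `X_j ↦ ∑_i ρ(g)_{ij} X_i`. -/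
def IsSym {d : ℕ} (ρ : G →* GL (Fin d) F) (n : ℕ) (A : GMod F G) : Prop :=
  ∃ e : A.V → MvPolynomial (Fin d) F, IsLinearMap F e ∧ Function.Injective e ∧
    (∀ P, P.IsHomogeneous n ↔ P ∈ Set.range e) ∧
    ∀ g v, e (A.act g v) = aeval (fun j => ∑ i, C (ρ g i j) * X i) (e v)

/-- `A` is the `n`-th tensor power of `ρ`: the functions on the set of multi-indices
`(k_1, ..., k_n)`, `g` acts with the matrix `ρ(g)_{k_1 i_1} ... ρ(g)_{k_n i_n}`. -/
def IsTen {d : ℕ} (ρ : G →* GL (Fin d) F) (n : ℕ) (A : GMod F G) : Prop :=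
  ∃ e : A.V → (Fin n → Fin d) → F, IsLinearMap F e ∧ Function.Bijective e ∧
    ∀ g v k, e (A.act g v) k = ∑ i, (∏ t, ρ g (k t) (i t)) * e v i

/-- `G` acts on `M` by the automorphisms `φ g` -/
def IsAction {M : Type} [Field M] (φ : G → (M ≃+* M)) : Prop :=
  ∀ g g' x, φ (g * g') x = φ g (φ g' x)

/-- `b` is a bilinear `G`-invariant pairing `Cl(M) × A → F`. -/
def IsPairing {M : Type} [Field M] [NumberField M] (φ : G → (M ≃+* M)) (A : GMod F G)
    (b : ClassGroup (𝓞 M) → A.V → F) : Prop :=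
  (∀ x y v, b (x * y) v = b x v + b y v) ∧ (∀ x, IsLinearMap F (b x)) ∧ ∀ g x v,
    b (ClassGroup.mulEquiv (RingOfIntegers.mapRingEquiv (φ g)) x) (A.act g v) = b x v

/-- The dimension of the space of these pairings. -/
noncomputable def pairNum {M : Type} [Field M] [NumberField M] (φ : G → (M ≃+* M))
    (A : GMod F G) : ℕ :=
  Set.finrank F {b | IsPairing φ A b}

end

/-- The `p`-rank of `Cl(M)`: the dimension of the space of homomorphisms to `F`. -/
noncomputable def classRank (F : Type) [Field F] (M : Type) [Field M] [NumberField M] : ℕ :=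
  Set.finrank F {f : ClassGroup (𝓞 M) → F | ∀ x y, f (x * y) = f x + f y}

/-- `f n = o(a n)` -/
def IsSmall (f : ℕ → ℕ) (a : ℕ → ℝ) : Prop :=
  ∀ ε : ℝ, 0 < ε → ∀ᶠ n in Filter.atTop, (f n : ℝ) ≤ ε * a n

/-- `f 0 + ... + f N ≤ ε b N` for all `ε > 0` and arbitrarily large `N` -/
def OftenSmall (f : ℕ → ℕ) (b : ℕ → ℝ) : Prop :=
  ∀ ε : ℝ, 0 < ε → ∀ N₀ : ℕ, ∃ N ≥ N₀, ((∑ n ∈ Finset.range (N + 1), f n : ℕ) : ℝ) ≤ ε * b N

/-- `f j 0 + ... + f j N ≤ ε b N a j` for all `ε > 0`, arbitrarily large `N` and all large `j` -/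
def OftenSmallIn (f : ℕ → ℕ → ℕ) (b a : ℕ → ℝ) : Prop :=
  ∀ ε : ℝ, 0 < ε → ∀ N₀ : ℕ, ∃ N ≥ N₀, ∀ᶠ n in Filter.atTop,
    ((∑ j ∈ Finset.range (N + 1), f n j : ℕ) : ℝ) ≤ ε * b N * a n

end Pool.H23.MS
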